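import Pool.Agent.H37.CNM.Stmts

/-!
Row APB of board cnm (MP_b57703_ag).
-/

set_option autoImplicit false

namespace Pool.CND

/-- powers of a product with a central commutator -/
theorem apb_pow {G : Type} [Group G] (x s c : G) (hc : ∀ g : G, c * g = g * c)
    (h : s * x = c * (x * s)) (n : ℕ) : (x * s) ^ n = x ^ n * s ^ n * c ^ (n * (n - 1) / 2) := by
  have hcp : ∀ (k : ℕ) (g : G), c ^ k * g = g * c ^ k := by
    intro k g
    exact ((Commute.pow_left (show Commute c g from hc g) k)).eq
  have hs : ∀ k : ℕ, s ^ k * x = c ^ k * (x * s ^ k) := by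
    intro k
    induction k with
    | zero => simp
    | succ k ih =>
      calc s ^ (k + 1) * x = s ^ k * (s * x) := by rw [pow_succ, mul_assoc]
        _ = s ^ k * (c * (x * s)) := by rw [h]
        _ = c * (s ^ k * x * s) := by rw [← mul_assoc, ← hc, mul_assoc, mul_assoc]
        _ = c * (c ^ k * (x * s ^ k) * s) := by rw [ih]
        _ = c ^ (k + 1) * (x * s ^ (k + 1)) := by
          rw [pow_succ' c, pow_succ s]
          simp only [mul_assoc]
  induction n with
  | zero => simp
  | succ n ih =>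
    have hn : (n + 1) * (n + 1 - 1) / 2 = n + n * (n - 1) / 2 := by
      rw [Nat.add_sub_cancel]
      have h1 : (n + 1) * n = n * (n - 1) + n * 2 := by
        cases n with
        | zero => rfl
        | succ m => rw [Nat.add_sub_cancel]; ring
      rw [h1, Nat.add_mul_div_right _ _ (by norm_num)]
      omega
    calc (x * s) ^ (n + 1) = x ^ n * s ^ n * c ^ (n * (n - 1) / 2) * (x * s) := by
          rw [pow_succ, ih]
      _ = x ^ n * (s ^ n * x) * s * c ^ (n * (n - 1) / 2) := by
          rw [mul_assoc (x ^ n * s ^ n), hcp]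
          simp only [mul_assoc]
      _ = x ^ n * (c ^ n * (x * s ^ n)) * s * c ^ (n * (n - 1) / 2) := by rw [hs]
      _ = (x ^ n * x) * (s ^ n * s) * (c ^ n * c ^ (n * (n - 1) / 2)) := by
          rw [hcp n (x * s ^ n)]
          have h2 : c ^ n * (s * c ^ (n * (n - 1) / 2)) = s * (c ^ n * c ^ (n * (n - 1) / 2)) := by
            rw [← mul_assoc, hcp n s, mul_assoc]
          simp only [mul_assoc]
          rw [h2]
      _ = x ^ (n + 1) * s ^ (n + 1) * c ^ ((n + 1) * (n + 1 - 1) / 2) := by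
          rw [hn, pow_add c, ← pow_succ, ← pow_succ]

theorem apb_aux (hAPA : S_APA) (p : ℕ) (hp : p.Prime) (hp2 : p ≠ 2) : ∀ (N : ℕ) (G : Type)
    [Group G] [Finite G] (E : Subgroup G), Nat.card E ≤ N → (∃ n : ℕ, Nat.card G = p ^ n) →
    E.Normal → (∀ x ∈ E, x ^ p = 1 → x ∈ Subgroup.center G) →
    ∀ x : G, ∀ s ∈ E, x ^ p = 1 → (x * s) ^ p = 1 → s ^ p = 1 := by
  intro N
  induction N with
  | zero =>
    intro G _ _ E hE
    have : 0 < Nat.card E := Nat.card_pos
    omega
  | succ N ih =>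
    intro G _ _ E hE hG hn hc x s hs hx hxs
    let R : Subgroup G :=
      { carrier := {y | y ∈ E ∧ y ^ p = 1}
        one_mem' := ⟨E.one_mem, one_pow p⟩
        mul_mem' := by
          rintro a b ⟨ha, ha'⟩ ⟨hb, hb'⟩
          refine ⟨E.mul_mem ha hb, ?_⟩
          have h1 := Subgroup.mem_center_iff.1 (hc a ha ha') b
          rw [(show Commute a b from h1.symm).mul_pow, ha', hb', one_mul]
        inv_mem' := by
          rintro a ⟨ha, ha'⟩
          exact ⟨E.inv_mem ha, by rw [inv_pow, ha', inv_one]⟩ }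
    have hR : ∀ y, y ∈ R ↔ y ∈ E ∧ y ^ p = 1 := fun y => Iff.rfl
    have hRc : ∀ y ∈ R, ∀ g : G, g * y = y * g := fun y hy g =>
      Subgroup.mem_center_iff.1 (hc y ((hR y).1 hy).1 ((hR y).1 hy).2) g
    have hRn : R.Normal := ⟨fun y hy g => by rw [hRc y hy g, mul_inv_cancel_right]; exact hy⟩
    have hcomm : ∀ w ∈ E, ∀ g : G, w * g * w⁻¹ * g⁻¹ ∈ E := by
      intro w hw g
      have h1 : w * g * w⁻¹ * g⁻¹ = w * (g * w⁻¹ * g⁻¹) := by group
      rw [h1]
      exact E.mul_mem hw (hn.conj_mem _ (E.inv_mem hw) g)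
    by_cases hRbot : ∀ y ∈ R, y = 1
    · -- then `s = 1`
      have hs1 : s = 1 := by
        by_contra hne
        obtain ⟨n, hn'⟩ := hG
        have ho : orderOf s ∣ p ^ n := by rw [← hn']; exact orderOf_dvd_natCard s
        obtain ⟨k, -, hk⟩ := (Nat.dvd_prime_pow hp).1 ho
        have hk0 : k ≠ 0 := by
          rintro rfl
          rw [pow_zero, orderOf_eq_one_iff] at hk
          exact hne hk
        obtain ⟨j, rfl⟩ : ∃ j, k = j + 1 := ⟨k - 1, by omega⟩
        have h1 : s ^ (p ^ j) ∈ R := by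
          refine (hR _).2 ⟨E.pow_mem hs _, ?_⟩
          rw [← pow_mul, ← pow_succ, ← hk, pow_orderOf_eq_one]
        have h2 := hRbot _ h1
        have h3 := orderOf_dvd_of_pow_eq_one h2
        rw [hk] at h3
        have h4 := (Nat.pow_dvd_pow_iff_le_right hp.one_lt).1 h3
        omega
      rw [hs1, one_pow]
    · push Not at hRbot
      obtain ⟨y, hyR, hy1⟩ := hRbot
      let φ : G →* G ⧸ R := QuotientGroup.mk' R
      have hφs : Function.Surjective φ := QuotientGroup.mk'_surjective R
      have hφ : ∀ g : G, φ g = 1 ↔ g ∈ R := fun g => QuotientGroup.eq_one_iff g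
      have hcard : Nat.card (E.map φ) < Nat.card E := by
        by_contra hge
        have hinj := ((φ.subgroupMap_surjective E).bijective_of_nat_card_le (not_lt.1 hge)).1
        have h1 : φ.subgroupMap E ⟨y, ((hR y).1 hyR).1⟩ = φ.subgroupMap E 1 := by
          apply Subtype.ext
          show φ y = φ 1
          rw [map_one]
          exact (hφ y).2 hyR
        have h2 := congrArg Subtype.val (hinj h1)
        exact hy1 h2
      have hG' : ∃ n : ℕ, Nat.card (G ⧸ R) = p ^ n := by
        obtain ⟨n, hn'⟩ := hG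
        have h1 : Nat.card (G ⧸ R) ∣ p ^ n := by
          rw [← hn']
          exact Subgroup.card_quotient_dvd_card R
        obtain ⟨k, -, hk⟩ := (Nat.dvd_prime_pow hp).1 h1
        exact ⟨k, hk⟩
      have hn' : (E.map φ).Normal := hn.map φ hφs
      have hc' : ∀ z ∈ E.map φ, z ^ p = 1 → z ∈ Subgroup.center (G ⧸ R) := by
        rintro _ ⟨w, hw, rfl⟩ hz
        rw [← map_pow, hφ] at hz
        rw [Subgroup.mem_center_iff]
        intro g'
        obtain ⟨g, rfl⟩ := hφs g'
        have h1 : w * g * w⁻¹ * g⁻¹ ∈ R :=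
          (hR _).2 ⟨hcomm w hw g, hAPA p G E hp hp2 hG hn hc w hw g ((hR _).1 hz).2⟩
        have h2 := (hφ _).2 h1
        rw [map_mul, map_mul, map_mul, map_inv, map_inv] at h2
        rw [mul_inv_eq_one, mul_inv_eq_iff_eq_mul] at h2
        exact h2.symm
      have h1 := ih (G ⧸ R) (E.map φ) (by omega) hG' hn' hc' (φ x) (φ s) ⟨s, hs, rfl⟩
        (by rw [← map_pow, hx, map_one]) (by rw [← map_mul, ← map_pow, hxs, map_one])
      rw [← map_pow, hφ] at h1
      have h2 := ((hR _).1 h1).2
      have h3 : s * x * s⁻¹ * x⁻¹ ∈ R :=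
        (hR _).2 ⟨hcomm s hs x, hAPA p G E hp hp2 hG hn hc s hs x h2⟩
      have h4 : s * x = (s * x * s⁻¹ * x⁻¹) * (x * s) := by group
      have h5 := apb_pow x s _ (fun g => (hRc _ h3 g).symm) h4 p
      obtain ⟨m, hm⟩ := hp.odd_of_ne_two hp2
      have h6 : p * (p - 1) / 2 = p * m := by
        have : p - 1 = m * 2 := by omega
        rw [this, ← mul_assoc, Nat.mul_div_cancel _ (by norm_num)]
      rw [hxs, hx, one_mul, h6, pow_mul, ((hR _).1 h3).2, one_pow, mul_one] at h5
      exact h5.symm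

theorem apb_thm (hAPA : S_APA) : S_APB := by
  intro p G _ _ E hp hp2 hG hn hc x s hs hx hxs
  exact apb_aux hAPA p hp hp2 (Nat.card E) G E le_rfl hG hn hc x s hs hx hxs

end Pool.CND
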